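import Pool.Agent.H16.P4.Prp

/-!
# P4, (H0): the abstract time is almost independent of the line
-/

set_option autoImplicit false

namespace Pool.P4E

open Finset Real
open Pool.Agent.H49.Ent Pool.Agent.H32.Dense Pool.STK Pool.MIC Pool.STAT Pool.P4
open Pool.BFL (Pb)
open Pool.MIC.Frm Pool.MIC7 Pool.FRM Pool.GSD

section hyp

variable {D : NDat2} {n K K' J a₀ w₀ z M w i j r r' r'' y X : ℕ} {lam gam : ℕ → ℝ}
  {κ C₁ C : ℝ} {q : D.Ω → ℝ} {E : D.Ω → Prop} {P : D.Γ × D.Γ → ℕ → PN}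
  {S : D.Ω → ℕ → ℕ → ℝ} {c k : ℕ} {ys : Fin k → ℕ} {gs : Fin c → ℕ}

/-- The bound for a vector with `X` digits which is nearly constant on the classes. -/
noncomputable def fb (d : ℕ) (a b : ℝ) (X : ℕ) (t : ℝ) : ℝ :=
  Real.log 2 + d * (Real.log (2 * a + 1) + t * (Real.log (4 * b + 1) + X))

theorem few_X (H : Hyp D n K K' J a₀ w₀ z M w i j r r' r'' y X lam gam κ C₁ C q E P S ys gs)
    {T ι : Type} [Fintype ι] (V : D.Ω → ι → ℤ) (Y : D.Ω → T) {a b : ℝ} (ha : 0 ≤ a) (hb : 0 < b)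
    (h1 : ∀ ω ω', 0 < q ω → 0 < q ω' → E ω → E ω' → Y ω = Y ω' →
      ∀ s, |((V ω s - V ω' s : ℤ) : ℝ)| ≤ a)
    (h2 : ∀ ω, 0 < q ω → ∀ s, |((V ω s : ℤ) : ℝ)| ≤ b * 2 ^ X) :
    CH q V Y ≤ fb (Fintype.card ι) a b X (Pb q fun ω => ¬ E ω) := by
  have h := few_idx H.ok.isLaw V Y E ha (by positivity) h1 h2
  refine h.trans ?_
  unfold fb
  have h3 := log_le X hb
  have h4 := Pb_nonneg H.ok.isLaw.nonneg (fun ω => ¬ E ω)
  have h5 := mul_le_mul_of_nonneg_left h3 h4
  have h6 : (Fintype.card ι : ℝ) * (Real.log (2 * a + 1) + Pb q (fun ω => ¬ E ω) *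
      Real.log (4 * (b * 2 ^ X) + 1)) ≤ Fintype.card ι * (Real.log (2 * a + 1) +
      Pb q (fun ω => ¬ E ω) * (Real.log (4 * b + 1) + X)) :=
    mul_le_mul_of_nonneg_left (by linarith) (Nat.cast_nonneg _)
  linarith

/-- The digits of a quotient. -/
theorem quo_sub {x x' τ R Q : ℝ} (hQ : 0 ≤ Q) (hR : 1 ≤ R) (h : |x - x'| ≤ τ) (hτ : Q * τ ≤ 1) :
    Q * |x / R - x' / R| ≤ 1 := by
  have hR0 : 0 < R := by linarith
  have e : x / R - x' / R = (x - x') / R := by ring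
  rw [e, abs_div, abs_of_pos hR0]
  have h1 : |x - x'| / R ≤ τ := by
    rw [div_le_iff₀ hR0]
    have h0 : 0 ≤ |x - x'| := abs_nonneg _
    nlinarith
  calc Q * (|x - x'| / R) ≤ Q * τ := mul_le_mul_of_nonneg_left h1 hQ
    _ ≤ 1 := hτ

theorem Rg_one (H : Hyp D n K K' J a₀ w₀ z M w i j r r' r'' y X lam gam κ C₁ C q E P S ys gs) :
    1 ≤ Rg z C := by
  rw [Rg_eq]
  have h1 := Ry_one H
  nlinarith

/-- The slopes given the right side. -/
theorem Sv_few (H : Hyp D n K K' J a₀ w₀ z M w i j r r' r'' y X lam gam κ C₁ C q E P S ys gs)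
    {T : Type} (Y : D.Ω → T)
    (hY : ∀ ω ω', 0 < q ω → 0 < q ω' → E ω → E ω' → Y ω = Y ω' → ∀ u, gr gam n u → ∀ l,
      sl gam n l → |S ω u l - S ω' u l| ≤ exp (C * z) / 2 ^ (y * z)) :
    CH q (Sv D z X C S ys gs) Y ≤ fb (c * k) 3 1 X (Pb q fun ω => ¬ E ω) := by
  have h := few_X H (ι := Fin c × Fin k) (fun ω s => Sv D z X C S ys gs ω s.1 s.2) Y
    (a := 3) (b := 1) (by norm_num) one_pos
    (by
      intro ω ω' p p' hE hE' e s
      have h1 := hY ω ω' p p' hE hE' e _ (H.gs_gr s.1) _ (H.ys_sl s.2)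
      have hR := Ry_one H
      have hQ : (0 : ℝ) ≤ 2 ^ X := by positivity
      have h2 : (2 : ℝ) ^ X * |S ω (gs s.1) (ys s.2) * (2 * Ry z C) / Rg z C -
          S ω' (gs s.1) (ys s.2) * (2 * Ry z C) / Rg z C| ≤ 1 := by
        have e1 : ∀ x : ℝ, x * (2 * Ry z C) / Rg z C = x / Ry z C := by
          intro x
          rw [Rg_eq]
          field_simp
        rw [e1, e1]
        exact quo_sub hQ hR h1 (tau_le H)
      have h3 := dg_sub h2
      unfold Sv
      linarith)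
    (by
      intro ω _ s
      unfold Sv
      rw [one_mul]
      exact dg_abs X _)
  rw [Fintype.card_prod, Fintype.card_fin, Fintype.card_fin] at h
  refine le_trans (CH_mono_left H.ok.isLaw.nonneg ?_) h
  intro ω ω' _ _ hh
  funext u a
  exact congrFun (Prod.ext_iff.1 hh).1 (u, a)

/-- The slow coordinates given the left side. -/
theorem yv_few (H : Hyp D n K K' J a₀ w₀ z M w i j r r' r'' y X lam gam κ C₁ C q E P S ys gs)
    {T : Type} (Y : D.Ω → T)
    (hY : ∀ ω ω', 0 < q ω → 0 < q ω' → E ω → E ω' → Y ω = Y ω' → ∀ l, sl gam n l →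
      |z0 D J w i j r P ω l - z0 D J w i j r P ω' l| ≤ exp (C * z) / 2 ^ (y * z)) :
    CH q (yv D J w z i j r X C P ys) Y ≤ fb k 3 1 X (Pb q fun ω => ¬ E ω) := by
  have h := few_X H (yv D J w z i j r X C P ys) Y (a := 3) (b := 1) (by norm_num) one_pos
    (by
      intro ω ω' p p' hE hE' e s
      have h1 := hY ω ω' p p' hE hE' e _ (H.ys_sl s)
      have hR := Ry_one H
      have hQ : (0 : ℝ) ≤ 2 ^ X := by positivity
      have h2 : (2 : ℝ) ^ X * |(z0 D J w i j r P ω (ys s) + Ry z C) / (2 * Ry z C) -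
          (z0 D J w i j r P ω' (ys s) + Ry z C) / (2 * Ry z C)| ≤ 1 := by
        refine quo_sub (τ := exp (C * z) / 2 ^ (y * z)) hQ (by linarith) ?_ (tau_le H)
        rw [add_sub_add_right_eq_sub]
        exact h1
      have h3 := dgp_sub h2
      unfold yv
      linarith)
    (by
      intro ω _ s
      unfold yv
      rw [one_mul]
      exact dgp_abs X _)
  rwa [Fintype.card_fin] at h

/-- The heights of the group at the left end given the left side. -/
theorem nuv_few (H : Hyp D n K K' J a₀ w₀ z M w i j r r' r'' y X lam gam κ C₁ C q E P S ys gs)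
    {T : Type} (Y : D.Ω → T)
    (hY : ∀ ω ω', 0 < q ω → 0 < q ω' → E ω → E ω' → Y ω = Y ω' → ∀ l, gr gam n l →
      |z0 D J w i j r P ω l - z0 D J w i j r P ω' l| ≤ exp (C * z) / 2 ^ (y * z)) :
    CH q (nuv D J w z i j r X C P gs) Y ≤ fb c 3 1 X (Pb q fun ω => ¬ E ω) := by
  have h := few_X H (nuv D J w z i j r X C P gs) Y (a := 3) (b := 1) (by norm_num) one_pos
    (by
      intro ω ω' p p' hE hE' e s
      have h1 := hY ω ω' p p' hE hE' e _ (H.gs_gr s)
      have h2 : (2 : ℝ) ^ X * |z0 D J w i j r P ω (gs s) / Rg z C -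
          z0 D J w i j r P ω' (gs s) / Rg z C| ≤ 1 :=
        quo_sub (by positivity) (Rg_one H) h1 (tau_le H)
      have h3 := dg_sub h2
      unfold nuv
      linarith)
    (by
      intro ω _ s
      unfold nuv
      rw [one_mul]
      exact dg_abs X _)
  rwa [Fintype.card_fin] at h

/-- The velocities given the left side. -/
theorem bev_few (H : Hyp D n K K' J a₀ w₀ z M w i j r r' r'' y X lam gam κ C₁ C q E P S ys gs)
    {T : Type} (Y : D.Ω → T)
    (hY : ∀ ω ω', 0 < q ω → 0 < q ω' → E ω → E ω' → Y ω = Y ω' → ∀ l, gr gam n l →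
      |be D J w i j r P ω l - be D J w i j r P ω' l| ≤ exp (C * z) / 2 ^ (y * z)) :
    CH q (bev D J w z i j r X C P gs) Y ≤ fb c 3 1 X (Pb q fun ω => ¬ E ω) := by
  have h := few_X H (bev D J w z i j r X C P gs) Y (a := 3) (b := 1) (by norm_num) one_pos
    (by
      intro ω ω' p p' hE hE' e s
      have h1 := hY ω ω' p p' hE hE' e _ (H.gs_gr s)
      have h2 : (2 : ℝ) ^ X * |be D J w i j r P ω (gs s) / Rg z C -
          be D J w i j r P ω' (gs s) / Rg z C| ≤ 1 :=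
        quo_sub (by positivity) (Rg_one H) h1 (tau_le H)
      have h3 := dg_sub h2
      unfold bev
      linarith)
    (by
      intro ω _ s
      unfold bev
      rw [one_mul]
      exact dg_abs X _)
  rwa [Fintype.card_fin] at h

/-- `fb` against `err`. -/
theorem fb_le (d : ℕ) {a b : ℝ} (ha : 0 ≤ a) (hb : 0 < b) (X : ℕ) {t : ℝ} (h0 : 0 ≤ t)
    (h1 : t ≤ 1) : fb d a b X t ≤
      (1 + d * (Real.log (2 * a + 1) + Real.log (4 * b + 1) + 1)) * (1 + X * t) := by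
  unfold fb
  have l1 : 0 ≤ Real.log (2 * a + 1) := Real.log_nonneg (by linarith)
  have l2 : 0 ≤ Real.log (4 * b + 1) := Real.log_nonneg (by linarith)
  have l3 : Real.log 2 ≤ 1 := by
    have := Real.log_two_lt_d9
    linarith
  have hX : (0 : ℝ) ≤ X := Nat.cast_nonneg X
  have hXt : 0 ≤ (X : ℝ) * t := mul_nonneg hX h0
  have hd : (0 : ℝ) ≤ d := Nat.cast_nonneg d
  have e1 : Real.log (2 * a + 1) + t * (Real.log (4 * b + 1) + X) ≤
      (Real.log (2 * a + 1) + Real.log (4 * b + 1) + 1) * (1 + X * t) := by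
    have f1 : t * Real.log (4 * b + 1) ≤ 1 * Real.log (4 * b + 1) :=
      mul_le_mul_of_nonneg_right h1 l2
    have f2 : 0 ≤ Real.log (2 * a + 1) * (X * t) := mul_nonneg l1 hXt
    have f3 : 0 ≤ Real.log (4 * b + 1) * (X * t) := mul_nonneg l2 hXt
    nlinarith
  have e2 := mul_le_mul_of_nonneg_left e1 hd
  nlinarith

theorem l7 : Real.log (2 * 3 + 1) ≤ 3 := by
  have h1 : (2 * 3 + 1 : ℝ) = 7 := by norm_num
  rw [h1]
  have h2 : (7 : ℝ) ≤ 8 := by norm_num
  have h3 := Real.log_le_log (by norm_num) h2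
  have h4 : Real.log 8 = 3 * Real.log 2 := by
    rw [show (8 : ℝ) = 2 ^ 3 by norm_num, Real.log_pow]
    norm_num
  have := Real.log_two_lt_d9
  linarith

theorem l5 : Real.log (4 * 1 + 1) ≤ 3 := by
  have h2 : (4 * 1 + 1 : ℝ) ≤ 2 * 3 + 1 := by norm_num
  exact (Real.log_le_log (by norm_num) h2).trans l7

theorem fb1_le (d : ℕ) (X : ℕ) {t : ℝ} (h0 : 0 ≤ t) (h1 : t ≤ 1) :
    fb d 3 1 X t ≤ (1 + 7 * d) * (1 + X * t) := by
  refine (fb_le d (by norm_num) one_pos X h0 h1).trans ?_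
  have hXt : 0 ≤ 1 + (X : ℝ) * t := by
    have := mul_nonneg (Nat.cast_nonneg (α := ℝ) X) h0
    linarith
  refine mul_le_mul_of_nonneg_right ?_ hXt
  have hd : (0 : ℝ) ≤ d := Nat.cast_nonneg d
  have h := mul_le_mul_of_nonneg_left (add_le_add (add_le_add l7 l5) (le_refl (1 : ℝ))) hd
  have e : (d : ℝ) * (3 + 3 + 1) = 7 * d := by ring
  rw [e] at h
  exact add_le_add le_rfl h

theorem Pb_le_one {Ω : Type} [Fintype Ω] {q : Ω → ℝ} (hq : IsLaw q) (E : Ω → Prop) :
    Pb q E ≤ 1 := by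
  have h1 := Pb_not hq.sum_one E
  have h2 := Pb_nonneg hq.nonneg (fun ω => ¬ E ω)
  linarith

/-- The line, with the context. -/
noncomputable def lnv (D : NDat2) (J w z i j r X : ℕ) (C : ℝ) (P : D.Γ × D.Γ → ℕ → PN)
    {c k : ℕ} (ys : Fin k → ℕ) (gs : Fin c → ℕ) (ω : D.Ω) :
    (Fin c → ℤ) × ((((D.Γ × D.Γ) × ℕ) × ((Fin k → ℤ) × (Fin c → ℤ))) × ((D.Γ × D.Γ) × ℕ)) :=
  (nuv D J w z i j r X C P gs ω, (P4.vv D J w z i j r X C P ys gs ω, cb D J w i j r ω))

theorem line_eq (D : NDat2) (J w z i j r X : ℕ) (C : ℝ) (P : D.Γ × D.Γ → ℕ → PN)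
    (S : D.Ω → ℕ → ℕ → ℝ) {c k : ℕ} (ys : Fin k → ℕ) (gs : Fin c → ℕ) (q : D.Ω → ℝ) :
    (qh (c := c) (k := k) D J w z i j r X C P S ys gs q).line =
      lnv D J w z i j r X C P ys gs := rfl

/-- The line is a function of the line and of the window. -/
theorem line_wn (H : Hyp D n K K' J a₀ w₀ z M w i j r r' r'' y X lam gam κ C₁ C q E P S ys gs) :
    Det q (D.wn J w) (lnv D J w z i j r X C P ys gs) := by
  intro ω ω' a b e
  have e1 := bb_wn H ω ω' a b e
  have e2 : D.ln ω = D.ln ω' := (Prod.ext_iff.1 e).1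
  have e3 : D.T ω / 2 ^ (J - w) = D.T ω' / 2 ^ (J - w) := (Prod.ext_iff.1 e).2
  have e4 : t0 D J w ω = t0 D J w ω' := by
    unfold t0
    rw [e3]
  have ezt : ∀ (t : ℝ) (l : ℕ), zt D i j r P t ω l = zt D i j r P t ω' l := by
    intro t l
    unfold zt
    rw [e1, e2]
  have ez : ∀ l, z0 D J w i j r P ω l = z0 D J w i j r P ω' l := by
    intro l
    unfold z0
    rw [e4, ezt]
  have eb : ∀ l, be D J w i j r P ω l = be D J w i j r P ω' l := by
    intro l
    unfold be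
    rw [ez, e4, ezt]
  have ecb : cb D J w i j r ω = cb D J w i j r ω' := Prod.ext e1 e3
  have en : nuv D J w z i j r X C P gs ω = nuv D J w z i j r X C P gs ω' := by
    funext u
    unfold nuv
    rw [ez]
  have ey : yv D J w z i j r X C P ys ω = yv D J w z i j r X C P ys ω' := by
    funext u
    unfold yv
    rw [ez]
  have ebe : bev D J w z i j r X C P gs ω = bev D J w z i j r X C P gs ω' := by
    funext u
    unfold bev
    rw [eb]
  unfold lnv P4.vv
  rw [en, ey, ebe, ecb]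

/-- The samples which agree on the left side. -/
theorem lft_cls {r₁ : ℕ} {ω ω' : D.Ω}
    (e : (D.lft i j r₁ r 1 ω, (D.T ω, cb D J w i j r ω)) =
      (D.lft i j r₁ r 1 ω', (D.T ω', cb D J w i j r ω'))) :
    bb D i j r ω = bb D i j r ω' ∧ D.c (i + r₁) (j - r) ω = D.c (i + r₁) (j - r) ω' ∧
      D.T ω / 2 ^ (J - w) = D.T ω' / 2 ^ (J - w) := by
  have e1 := Prod.ext_iff.1 e
  have e2 := Prod.ext_iff.1 e1.2
  have e3 := Prod.ext_iff.1 e2.2
  exact ⟨e3.1, lft_one e1.1, e3.2⟩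

/-- The samples which agree on the right side. -/
theorem rgt_cls (H : Hyp D n K K' J a₀ w₀ z M w i j r r' r'' y X lam gam κ C₁ C q E P S ys gs)
    {r₁ : ℕ} {ω ω' : D.Ω} (a : 0 < q ω) (b : 0 < q ω')
    (e : (D.rgt i j r₁ r 1 ω, (D.T ω, cb D J w i j r ω)) =
      (D.rgt i j r₁ r 1 ω', (D.T ω', cb D J w i j r ω'))) :
    bb D i j r ω = bb D i j r ω' ∧ D.T ω = D.T ω' ∧
      D.s (i - r₁) (j + r) ω = D.s (i - r₁) (j + r) ω' := by
  have e1 := Prod.ext_iff.1 e
  have e2 := Prod.ext_iff.1 e1.2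
  have e3 := Prod.ext_iff.1 e2.2
  exact ⟨e3.1, e2.1, rgt_one H a b e1.1 e2.1⟩

/-- The line, given the left side. -/
theorem line_few (H : Hyp D n K K' J a₀ w₀ z M w i j r r' r'' y X lam gam κ C₁ C q E P S ys gs)
    {t : ℝ} (ht : t = Pb q fun ω => ¬ E ω) :
    CH q (lnv D J w z i j r X C P ys gs)
      (fun ω => (D.lft i j r'' r 1 ω, (D.T ω, cb D J w i j r ω))) ≤
      (3 + 7 * (2 * c + k)) * (1 + X * t) := by
  have hl := H.ok.isLaw
  have hq := hl.nonneg
  have t0 : 0 ≤ t := by rw [ht]; exact Pb_nonneg hq _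
  have t1 : t ≤ 1 := by rw [ht]; exact Pb_le_one hl _
  have b1 : CH q (nuv D J w z i j r X C P gs)
      (fun ω => (D.lft i j r'' r 1 ω, (D.T ω, cb D J w i j r ω))) ≤
      (1 + 7 * c) * (1 + X * t) := by
    refine (nuv_few H _ fun ω ω' p p' hE hE' e l hl' => ?_).trans ?_
    · obtain ⟨e1, e2, e3⟩ := lft_cls e
      exact (H.geo.left2 ω ω' p p' hE hE' e1 e2 w H.w1 H.w2 e3 l hl'.1 hl'.2.1).1
    · rw [← ht]
      exact fb1_le c X t0 t1
  have b2 : CH q (yv D J w z i j r X C P ys)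
      (fun ω => (D.lft i j r'' r 1 ω, (D.T ω, cb D J w i j r ω))) ≤
      (1 + 7 * k) * (1 + X * t) := by
    refine (yv_few H _ fun ω ω' p p' hE hE' e l hl' => ?_).trans ?_
    · obtain ⟨e1, e2, e3⟩ := lft_cls e
      exact (H.geo.left2 ω ω' p p' hE hE' e1 e2 w H.w1 H.w2 e3 l hl'.1 hl'.2.1.le).1
    · rw [← ht]
      exact fb1_le k X t0 t1
  have b3 : CH q (bev D J w z i j r X C P gs)
      (fun ω => (D.lft i j r'' r 1 ω, (D.T ω, cb D J w i j r ω))) ≤
      (1 + 7 * c) * (1 + X * t) := by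
    refine (bev_few H _ fun ω ω' p p' hE hE' e l hl' => ?_).trans ?_
    · obtain ⟨e1, e2, e3⟩ := lft_cls e
      exact (H.geo.left2 ω ω' p p' hE hE' e1 e2 w H.w1 H.w2 e3 l hl'.1 hl'.2.1).2
    · rw [← ht]
      exact fb1_le c X t0 t1
  have c1 : CH q (lnv D J w z i j r X C P ys gs)
      (fun ω => (D.lft i j r'' r 1 ω, (D.T ω, cb D J w i j r ω))) ≤
      CH q (fun ω => (nuv D J w z i j r X C P gs ω, (yv D J w z i j r X C P ys ω,
        bev D J w z i j r X C P gs ω)))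
        (fun ω => (D.lft i j r'' r 1 ω, (D.T ω, cb D J w i j r ω))) := by
    refine CH_mono_left hq ?_
    intro ω ω' _ _ e
    simp only [Prod.mk.injEq] at e
    obtain ⟨⟨e1, e2, e3⟩, e4, e5, e6⟩ := e
    unfold lnv P4.vv
    rw [e1, e2, e3, e6]
  have c2 := CH_subadd hq (nuv D J w z i j r X C P gs) (fun ω => (yv D J w z i j r X C P ys ω,
    bev D J w z i j r X C P gs ω)) (fun ω => (D.lft i j r'' r 1 ω, (D.T ω, cb D J w i j r ω)))
  have c3 := CH_subadd hq (yv D J w z i j r X C P ys) (bev D J w z i j r X C P gs)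
    (fun ω => (D.lft i j r'' r 1 ω, (D.T ω, cb D J w i j r ω)))
  have c4 : (3 + 7 * (2 * (c : ℝ) + k)) * (1 + X * t) = (1 + 7 * c) * (1 + X * t) +
      ((1 + 7 * k) * (1 + X * t) + (1 + 7 * c) * (1 + X * t)) := by ring
  linarith

/-- The slopes and the line. -/
theorem slopes_line
    (H : Hyp D n K K' J a₀ w₀ z M w i j r r' r'' y X lam gam κ C₁ C q E P S ys gs)
    {t : ℝ} (ht : t = Pb q fun ω => ¬ E ω) :
    CH q (Sv D z X C S ys gs) (fun ω => (D.T ω, cb D J w i j r ω)) ≤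
      CH q (Sv D z X C S ys gs)
        (fun ω => (lnv D J w z i j r X C P ys gs ω, (D.T ω, cb D J w i j r ω))) +
      (κ * z + (4 + 7 * (2 * c + k + c * k)) * (1 + X * t)) := by
  have hl := H.ok.isLaw
  have hq := hl.nonneg
  have t0 : 0 ≤ t := by rw [ht]; exact Pb_nonneg hq _
  have t1 : t ≤ 1 := by rw [ht]; exact Pb_le_one hl _
  have a1 := mi_cb H (r₁ := r'') H.i1 H.i2
  have b4 := line_few H ht
  have b5 : CH q (Sv D z X C S ys gs)
      (fun ω => (D.rgt i j r'' r 1 ω, (D.T ω, cb D J w i j r ω))) ≤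
      (1 + 7 * ((c * k : ℕ) : ℝ)) * (1 + X * t) := by
    refine (Sv_few H _ fun ω ω' p p' hE hE' e u hu l hl' => ?_).trans ?_
    · obtain ⟨e1, e2, e3⟩ := rgt_cls H p p' e
      exact H.geo.right2 ω ω' p p' hE hE' e1 e2 e3 u hu l hl'
    · rw [← ht]
      exact fb1_le (c * k) X t0 t1
  have b6 := use_gen hq a1 b4 b5
  have e1 : ((c * k : ℕ) : ℝ) = c * k := by push_cast; ring
  rw [e1] at b6
  have e2 : κ * z + (3 + 7 * (2 * (c : ℝ) + k)) * (1 + X * t) + (1 + 7 * (c * k)) *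
      (1 + X * t) = κ * z + (4 + 7 * (2 * (c : ℝ) + k + c * k)) * (1 + X * t) := by ring
  rw [e2] at b6
  exact b6

/-- The time, given the context. -/
theorem time_ub (H : Hyp D n K K' J a₀ w₀ z M w i j r r' r'' y X lam gam κ C₁ C q E P S ys gs) :
    CH q D.T (cb D J w i j r) ≤ (J - w : ℕ) * Real.log 2 + 3 := by
  have hl := H.ok.isLaw
  have hq := hl.nonneg
  have f1 := CH_le_int hq hl.sum_one (fun ω => (D.T ω : ℤ)) (cb D J w i j r)
    (fun _ => (2 : ℝ) ^ (J - w)) (by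
      intro ω ω' _ _ e
      have e1 : D.T ω / 2 ^ (J - w) = D.T ω' / 2 ^ (J - w) := (Prod.ext_iff.1 e).2
      have g1 := Nat.div_add_mod (D.T ω) (2 ^ (J - w))
      have g2 := Nat.div_add_mod (D.T ω') (2 ^ (J - w))
      have g3 := Nat.mod_lt (D.T ω) (by positivity : 0 < 2 ^ (J - w))
      have g4 := Nat.mod_lt (D.T ω') (by positivity : 0 < 2 ^ (J - w))
      rw [← e1] at g2
      have g1' : (D.T ω : ℝ) = 2 ^ (J - w) * ((D.T ω / 2 ^ (J - w) : ℕ) : ℝ) +
          ((D.T ω % 2 ^ (J - w) : ℕ) : ℝ) := by exact_mod_cast g1.symm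
      have g2' : (D.T ω' : ℝ) = 2 ^ (J - w) * ((D.T ω / 2 ^ (J - w) : ℕ) : ℝ) +
          ((D.T ω' % 2 ^ (J - w) : ℕ) : ℝ) := by exact_mod_cast g2.symm
      have g6 : ((D.T ω % 2 ^ (J - w) : ℕ) : ℝ) < 2 ^ (J - w) := by exact_mod_cast g3
      have g7 : ((D.T ω' % 2 ^ (J - w) : ℕ) : ℝ) < 2 ^ (J - w) := by exact_mod_cast g4
      have g8 : (0 : ℝ) ≤ ((D.T ω % 2 ^ (J - w) : ℕ) : ℝ) := Nat.cast_nonneg _
      have g9 : (0 : ℝ) ≤ ((D.T ω' % 2 ^ (J - w) : ℕ) : ℝ) := Nat.cast_nonneg _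
      push_cast only [Int.cast_sub, Int.cast_natCast]
      rw [abs_le]
      constructor <;> linarith)
  rw [Ex_const hl.sum_one] at f1
  have f2 : CH q D.T (cb D J w i j r) = CH q (fun ω => (D.T ω : ℤ)) (cb D J w i j r) := by
    refine CH_congr hq ?_ ?_ (fun _ _ _ _ h => h) (fun _ _ _ _ h => h)
    · intro ω ω' _ _ h
      have : D.T ω = D.T ω' := (Prod.ext_iff.1 h).1
      simp only [this]
    · intro ω ω' _ _ h
      have : (D.T ω : ℤ) = D.T ω' := (Prod.ext_iff.1 h).1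
      exact_mod_cast this
  have f3 : Real.log (2 * 2 ^ (J - w) + 1) ≤ (J - w : ℕ) * Real.log 2 + 3 := by
    have g1 : (1 : ℝ) ≤ 2 ^ (J - w) := one_le_pow₀ (by norm_num)
    have g2 : 2 * (2 : ℝ) ^ (J - w) + 1 ≤ (2 * 3 + 1) * 2 ^ (J - w) := by linarith
    have g3 := Real.log_le_log (by positivity) g2
    have g4 : Real.log ((2 * 3 + 1) * 2 ^ (J - w)) = Real.log (2 * 3 + 1) +
        (J - w : ℕ) * Real.log 2 := by
      rw [Real.log_mul (by norm_num) (by positivity), Real.log_pow]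
    have g5 := l7
    linarith
  linarith

/-- The time, given the line. -/
theorem time_lb (H : Hyp D n K K' J a₀ w₀ z M w i j r r' r'' y X lam gam κ C₁ C q E P S ys gs) :
    ((J - w : ℕ) : ℝ) * Real.log 2 - κ * z ≤ CH q D.T (lnv D J w z i j r X C P ys gs) := by
  have hl := H.ok.isLaw
  have hq := hl.nonneg
  have hX := wX_le H
  have hw1 : w₀ ≤ w := by
    have := H.w1
    omega
  have f1 := Pool.TMU.CH_low hl D.T D.ln hw1 (by omega) H.ok.ln_w H.tmu
  exact f1.trans (CH_mono_cond hq (line_wn H))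

/-- **(H0)**, the entropies. -/
theorem h0_key (H : Hyp D n K K' J a₀ w₀ z M w i j r r' r'' y X lam gam κ C₁ C q E P S ys gs)
    {t : ℝ} (ht : t = Pb q fun ω => ¬ E ω) :
    CH q (tv D J w z i j r X C S ys gs) (cb D J w i j r) ≤
      CH q (tv D J w z i j r X C S ys gs) (lnv D J w z i j r X C P ys gs) +
        (3 + 2 * (κ * z) + (4 + 7 * (2 * c + k + c * k)) * (1 + X * t)) := by
  have hl := H.ok.isLaw
  have hq := hl.nonneg
  have d1 := time_ub H
  have d2 := time_lb H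
  have b6 := slopes_line H ht
  have k1 : CH q (tv D J w z i j r X C S ys gs) (cb D J w i j r) ≤ CH q D.T (cb D J w i j r) +
      CH q (Sv D z X C S ys gs) (fun ω => (D.T ω, cb D J w i j r ω)) := by
    have f1 : CH q (tv D J w z i j r X C S ys gs) (cb D J w i j r) ≤
        CH q (fun ω => (Sv D z X C S ys gs ω, D.T ω)) (cb D J w i j r) := by
      refine CH_mono_left hq ?_
      intro ω ω' _ _ e
      simp only [Prod.mk.injEq] at e
      obtain ⟨⟨e1, e2⟩, e3⟩ := e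
      unfold tv
      rw [e1, e2, e3]
    have f2 := CH_chain hq (Sv D z X C S ys gs) D.T (cb D J w i j r)
    linarith
  have k2 : CH q D.T (lnv D J w z i j r X C P ys gs) + CH q (Sv D z X C S ys gs)
      (fun ω => (lnv D J w z i j r X C P ys gs ω, (D.T ω, cb D J w i j r ω))) ≤
      CH q (tv D J w z i j r X C S ys gs) (lnv D J w z i j r X C P ys gs) := by
    have f1 : CH q (fun ω => (Sv D z X C S ys gs ω, D.T ω)) (lnv D J w z i j r X C P ys gs) ≤
        CH q (tv D J w z i j r X C S ys gs) (lnv D J w z i j r X C P ys gs) := by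
      refine CH_mono_left hq ?_
      intro ω ω' _ _ e
      have e1 : tv D J w z i j r X C S ys gs ω = tv D J w z i j r X C S ys gs ω' :=
        (Prod.ext_iff.1 e).1
      unfold tv at e1
      simp only [Prod.mk.injEq] at e1
      obtain ⟨-, e2, e3⟩ := e1
      show (Sv D z X C S ys gs ω, D.T ω) = (Sv D z X C S ys gs ω', D.T ω')
      rw [e2, e3]
    have f2 := CH_chain hq (Sv D z X C S ys gs) D.T (lnv D J w z i j r X C P ys gs)
    have f3 : CH q (Sv D z X C S ys gs)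
        (fun ω => (lnv D J w z i j r X C P ys gs ω, (D.T ω, cb D J w i j r ω))) ≤
        CH q (Sv D z X C S ys gs) (fun ω => (D.T ω, lnv D J w z i j r X C P ys gs ω)) :=
      CH_mono_cond hq fun ω ω' _ _ e => by
        simp only [Prod.mk.injEq] at e ⊢
        exact ⟨e.2.1, e.1⟩
    linarith
  linarith

/-- **(H0).** -/
theorem h0_stmt : H0Stmt := by
  intro n K K' c k C₁ C
  refine ⟨20 + 20 * (2 * c + k + c * k), by positivity, ?_⟩
  intro D J a₀ w₀ z M w i j r r' r'' y X lam gam κ q E P S ys gs H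
  obtain ⟨t, ht⟩ : ∃ t, t = Pb q fun ω => ¬ E ω := ⟨_, rfl⟩
  have key := h0_key H ht
  have hl := H.ok.isLaw
  have t0 : 0 ≤ t := by rw [ht]; exact Pb_nonneg hl.nonneg _
  have hz : (1 : ℝ) ≤ z := by exact_mod_cast H.z1
  have hκ := H.κ0
  have hκz : 0 ≤ κ * z := by positivity
  have hXt : 0 ≤ (X : ℝ) * t := mul_nonneg (Nat.cast_nonneg X) t0
  rw [← ht]
  refine key.trans (add_le_add le_rfl ?_)
  unfold err
  obtain ⟨A, hA⟩ : ∃ A : ℝ, A = 2 * (c : ℝ) + k + c * k := ⟨_, rfl⟩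
  have hA0 : 0 ≤ A := by rw [hA]; positivity
  rw [← hA]
  have f1 : (4 + 7 * A) * (1 + X * t) = (4 + 7 * A) + (4 + 7 * A) * (X * t) := by ring
  have f2 : (20 + 20 * A) * ((1 + κ) * z + X * t) = (20 + 20 * A) * z + (20 + 20 * A) * (κ * z) +
      (20 + 20 * A) * (X * t) := by ring
  rw [f1, f2]
  have f3 : (4 + 7 * A) * (X * t) ≤ (20 + 20 * A) * (X * t) :=
    mul_le_mul_of_nonneg_right (by linarith) hXt
  have f4 : 2 * (κ * z) ≤ (20 + 20 * A) * (κ * z) :=
    mul_le_mul_of_nonneg_right (by linarith) hκz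
  have f5 : (20 + 20 * A) * 1 ≤ (20 + 20 * A) * z := mul_le_mul_of_nonneg_left hz (by linarith)
  linarith

end hyp

end Pool.P4E
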