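import Pool.Agent.H46.MIC.Ev
import Pool.Agent.H49.Ent

/-!
# Entropies on a large event, for the picture of P4

`few_vec`: an integer vector which on the event `E` varies by at most `m` given `Y`.
`use_gen`: two sides almost independent given `W`, functions of the two sides.
-/

set_option autoImplicit false

namespace Pool.P4E

open Finset Real
open Pool.Agent.H49.Ent Pool.Agent.H32.Dense Pool.STK Pool.MIC
open Pool.BFL (Pb)

variable {Ω : Type} [Fintype Ω]

open Classical in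
theorem few_vec {T : Type} {d : ℕ} {q : Ω → ℝ} (hq : IsLaw q) (X : Ω → Fin d → ℤ) (Y : Ω → T)
    (E : Ω → Prop) {m B : ℝ} (hm : 0 ≤ m) (hB : 0 ≤ B)
    (h1 : ∀ ω ω', 0 < q ω → 0 < q ω' → E ω → E ω' → Y ω = Y ω' →
      ∀ k, |((X ω k - X ω' k : ℤ) : ℝ)| ≤ m)
    (h2 : ∀ ω, 0 < q ω → ∀ k, |((X ω k : ℤ) : ℝ)| ≤ B) :
    CH q X Y ≤ Real.log 2 + d * (Real.log (2 * m + 1) +
      Pb q (fun ω => ¬ E ω) * Real.log (4 * B + 1)) := by
  have a1 := CH_le_add hq.nonneg X E Y
  have a2 := CH_prop_le hq.nonneg hq.sum_one E Y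
  have a3 := CH_le_vec hq.nonneg hq.sum_one X (fun ω => (E ω, Y ω))
    (fun ω => if E ω then m else 2 * B) (by
      intro ω ω' p p' e k
      simp only [Prod.mk.injEq] at e
      by_cases hE : E ω
      · have hE' : E ω' := by rw [← e.1]; exact hE
        rw [if_pos hE]
        exact h1 ω ω' p p' hE hE' e.2 k
      · rw [if_neg hE]
        have b1 := h2 ω p k
        have b2 := h2 ω' p' k
        push_cast at b1 b2 ⊢
        exact (abs_sub _ _).trans (by linarith))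
  have a4 : Ex q (fun ω => Real.log (2 * (if E ω then m else 2 * B) + 1)) ≤
      Real.log (2 * m + 1) + Pb q (fun ω => ¬ E ω) * Real.log (4 * B + 1) := by
    have hl1 : 0 ≤ Real.log (2 * m + 1) := Real.log_nonneg (by linarith)
    have hl2 : 0 ≤ Real.log (4 * B + 1) := Real.log_nonneg (by linarith)
    have e1 : ∀ ω, 0 < q ω → Real.log (2 * (if E ω then m else 2 * B) + 1) ≤
        Real.log (2 * m + 1) + (if ¬ E ω then Real.log (4 * B + 1) else 0) := by
      intro ω _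
      by_cases hE : E ω
      · rw [if_pos hE, if_neg (not_not.2 hE), add_zero]
      · rw [if_neg hE, if_pos hE]
        have : 2 * (2 * B) + 1 = 4 * B + 1 := by ring
        rw [this]
        linarith
    have e2 := Ex_mono hq.nonneg e1
    rw [Ex_add, Ex_const hq.sum_one] at e2
    have e3 : Ex q (fun ω => if ¬ E ω then Real.log (4 * B + 1) else 0) =
        Pb q (fun ω => ¬ E ω) * Real.log (4 * B + 1) := by
      unfold Ex Pb
      rw [Finset.sum_mul]
      refine Finset.sum_congr rfl fun ω _ => ?_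
      by_cases hE : E ω <;> simp [hE]
    rw [e3] at e2
    exact e2
  have a5 := mul_le_mul_of_nonneg_left a4 (Nat.cast_nonneg (α := ℝ) d)
  linarith

/-- The same for an arbitrary finite index. -/
theorem few_idx {T ι : Type} [Fintype ι] {q : Ω → ℝ} (hq : IsLaw q) (X : Ω → ι → ℤ) (Y : Ω → T)
    (E : Ω → Prop) {m B : ℝ} (hm : 0 ≤ m) (hB : 0 ≤ B)
    (h1 : ∀ ω ω', 0 < q ω → 0 < q ω' → E ω → E ω' → Y ω = Y ω' →
      ∀ k, |((X ω k - X ω' k : ℤ) : ℝ)| ≤ m)
    (h2 : ∀ ω, 0 < q ω → ∀ k, |((X ω k : ℤ) : ℝ)| ≤ B) :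
    CH q X Y ≤ Real.log 2 + Fintype.card ι * (Real.log (2 * m + 1) +
      Pb q (fun ω => ¬ E ω) * Real.log (4 * B + 1)) := by
  have e := Fintype.equivFin ι
  have h := few_vec hq (fun ω j => X ω (e.symm j)) Y E hm hB
    (fun ω ω' p p' hE hE' hY k => h1 ω ω' p p' hE hE' hY _) (fun ω p k => h2 ω p _)
  refine le_trans (CH_mono_left hq.nonneg ?_) h
  intro ω ω' _ _ hh
  have h3 := congrFun (Prod.ext_iff.1 hh).1
  funext i
  have := h3 (e i)
  simpa using this

/-- **Functions of two almost independent sides.** -/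
theorem use_gen {S₁ S₂ S₃ S₄ S₅ : Type} {q : Ω → ℝ} (hq : ∀ ω, 0 ≤ q ω) {L : Ω → S₁}
    {R : Ω → S₂} {W : Ω → S₃} {X : Ω → S₄} {Y : Ω → S₅} {m e₁ e₂ : ℝ}
    (h : CH q R W ≤ CH q R (fun ω => (L ω, W ω)) + m)
    (hX : CH q X (fun ω => (L ω, W ω)) ≤ e₁) (hY : CH q Y (fun ω => (R ω, W ω)) ≤ e₂) :
    CH q Y W ≤ CH q Y (fun ω => (X ω, W ω)) + (m + e₁ + e₂) := by
  -- `Y` against `X`: chain through `R` and `L`
  have a1 := CH_chain hq R Y W
  have a2 := CH_chain hq Y R W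
  have a3 : CH q (fun ω => (R ω, Y ω)) W = CH q (fun ω => (Y ω, R ω)) W := CH_swl hq R Y W
  have b1 := CH_chain hq R Y (fun ω => (X ω, W ω))
  have b2 := CH_chain hq Y R (fun ω => (X ω, W ω))
  have b3 : CH q (fun ω => (R ω, Y ω)) (fun ω => (X ω, W ω)) =
      CH q (fun ω => (Y ω, R ω)) (fun ω => (X ω, W ω)) := CH_swl hq R Y _
  -- `R` given `(Y, W)` and given `(Y, (X, W))`
  have c1 : CH q R (fun ω => (Y ω, (X ω, W ω))) ≤ CH q R (fun ω => (Y ω, W ω)) :=
    CH_mono_cond hq fun ω ω' _ _ e => by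
      simp only [Prod.mk.injEq] at e ⊢
      exact ⟨e.1, e.2.2⟩
  have c2 : 0 ≤ CH q Y (fun ω => (R ω, (X ω, W ω))) := CH_nonneg hq _ _
  have c3 : CH q Y (fun ω => (R ω, W ω)) ≤ e₂ := hY
  -- `R` given `(L, W)` is at most `R` given `(X, W)` plus `e₁`
  have d1 : CH q R (fun ω => (L ω, W ω)) ≤ CH q R (fun ω => (X ω, W ω)) + e₁ := by
    have f1 := CH_le_add hq R X (fun ω => (L ω, W ω))
    have f2 : CH q R (fun ω => (X ω, (L ω, W ω))) ≤ CH q R (fun ω => (X ω, W ω)) :=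
      CH_mono_cond hq fun ω ω' _ _ e => by
        simp only [Prod.mk.injEq] at e ⊢
        exact ⟨e.1, e.2.2⟩
    linarith
  linarith

end Pool.P4E
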